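import Pool.Agent.Y163.Pole.Sq

/-!
# One pole decides

The formula of Tate for the products `X × Y` of a variety and a hyperplane section at the integer
`dim Y` and the formula for all varieties.
-/

open CategoryTheory AlgebraicGeometry

universe u v

namespace Pool.Agent.Y163.Pole

open Pool.Agent.H914 Pool.Agent.H447 VarClass Obj WeilCohomology Pool.Agent.W534

/-- The morphism `i : Y ⟶ X` is, for the Weil cohomology `W`, a hyperplane section in the class of
the divisor `D`: the dimension of `Y` is that of `X` less one, the class of the image of `Y` is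
that of `D`, the hard Lefschetz theorem holds for the class of `D` on the cohomology of `X`, and
the restriction to `Y` is surjective in the degrees less than the dimension of `Y`. For a
hyperplane section of a smooth projective variety and for `ℓ`-adic cohomology these are theorems
of Deligne and of Artin and Grothendieck. -/
structure HypSection {k : Type u} [Field k] {𝒱 : VarClass k} {ops : CycleOps 𝒱}
    (W : WeilCohomology.{u, v} ops) {X Y : 𝒱.Obj} (i : Y ⟶ X) (D : X.Cycles) : Prop where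
  dim_eq : X.dim = Y.dim + 1
  isCyc : X.IsCyc 1 D
  cl_eq : W.cl X (ops.push i Y.V.fundCycle) = W.cl X D
  hard : HardLefschetz W X D
  weak : WeakLefschetz W i

variable {k : Type u} [Field k] {𝒱 : VarClass k} {ops : CycleOps 𝒱}
  {W : WeilCohomology.{u, v} ops} {p : ℕ} {Φ : FrobSystem W p} {σ : W.K →+* ℂ}

theorem one_pole (hp : 1 < p) (hRH : ∀ Z : 𝒱.Obj, RiemannHyp Φ σ Z) {X Y : 𝒱.Obj} {i : Y ⟶ X}
    {D : X.Cycles} (h : HypSection W i D) (h1 : PoleFormula Φ σ (X.prod Y) Y.dim) :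
    LefschetzB W X D ∧
      (∀ j ≤ (X.prod Y).dim, PoleFormula Φ σ (X.prod Y) j) ∧
      (∀ j ≤ X.dim, PoleFormula Φ σ X j) ∧ (∀ j ≤ Y.dim, PoleFormula Φ σ Y j) ∧
      (∀ j ≤ (X.prod X).dim, j ≠ X.dim → PoleFormula Φ σ (X.prod X) j) ∧
      ∀ j ≤ (Y.prod Y).dim, j ≠ Y.dim → PoleFormula Φ σ (Y.prod Y) j := by
  have h2 := pole_factors hp hRH h.dim_eq h.isCyc h.cl_eq h.hard h.weak h1
  have h3 := pole_squares hp hRH h.dim_eq h.isCyc h.cl_eq h.hard h.weak h1
  exact ⟨h2.1, ((pole_hyperplane hp hRH h.dim_eq h.isCyc h.cl_eq h.hard h.weak).out 0 2).1 h1,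
    h2.2.1, h2.2.2, h3.1, h3.2⟩

theorem one_pole_all (hp : 1 < p) (hRH : ∀ Z : 𝒱.Obj, RiemannHyp Φ σ Z)
    (hs : ∀ X : 𝒱.Obj, 0 < X.dim → ∃ (Y : 𝒱.Obj) (i : Y ⟶ X) (D : X.Cycles), HypSection W i D) :
    List.TFAE [
      ∀ (X Y : 𝒱.Obj) (i : Y ⟶ X) (D : X.Cycles), HypSection W i D →
        PoleFormula Φ σ (X.prod Y) Y.dim,
      ∀ (Z : 𝒱.Obj) (n : ℕ), Z.dim = 2 * n + 1 → PoleFormula Φ σ Z n,
      ∀ (Z : 𝒱.Obj) (n : ℕ), Z.dim = 2 * n + 1 → SemisimpleTateIn Φ Z n,
      ∀ Z : 𝒱.Obj, 0 < Z.dim → ∀ j ≤ Z.dim, PoleFormula Φ σ Z j] := by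
  tfae_have 4 → 2 := fun h Z n hn => h Z (by omega) n (by omega)
  tfae_have 2 → 1 := fun h X Y i D hi => h _ _ (by
    rw [dim_prod, hi.dim_eq]
    ring)
  tfae_have 1 → 4 := by
    intro h Z hZ
    obtain ⟨Y, i, D, hi⟩ := hs Z hZ
    exact (one_pole hp hRH hi (h Z Y i D hi)).2.2.1
  tfae_have 2 → 3 := by
    intro h Z n hn
    exact (semisimple_of_pole hp (hRH Z) (j := n) (l := n + 1) (by omega) (h Z n hn)).1
  tfae_have 3 → 1 := by
    intro h X Y i D hi
    refine ((pole_hyperplane hp hRH hi.dim_eq hi.isCyc hi.cl_eq hi.hard hi.weak).out 0 3).2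
      (h _ _ ?_)
    rw [dim_prod, hi.dim_eq]
    ring
  tfae_finish

end Pool.Agent.Y163.Pole
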