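import Pool.Agent.W534.PoleD

/-!
# Poles of the zeta functions of the squares of a variety and of a hyperplane section

If Tate's formula for the order of the pole of the zeta function of `X × Y`, `Y` a hyperplane
section of `X`, holds at the integer `dim Y`, then it holds for `X × X` at all integers different
from `dim X`, and for `Y × Y` at all integers different from `dim Y`.
-/

open CategoryTheory AlgebraicGeometry Finset

universe u v

namespace Pool.Agent.Y163.Pole

open Pool.Agent.H914 Pool.Agent.H447 VarClass Obj WeilCohomology Pool.Agent.W534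

section Lin

variable {K V U : Type*} [Field K] [AddCommGroup V] [Module K V] [AddCommGroup U] [Module K U]
  {gr : ℕ → Submodule K V} {gr' : ℕ → Submodule K U} {m : ℕ} {L : Module.End K V}
  {M : Module.End K U} {ι : V →ₗ[K] U} {γ : U →ₗ[K] V}

/-- The push-forward is injective outside the middle degree. -/
lemma hsec_gamma_inj (h : HSec gr gr' m L M ι γ) {t : ℕ} (ht : t ≠ m) {b : U} (hb : b ∈ gr' t)
    (h0 : γ b = 0) : b = 0 := by
  rcases Nat.lt_or_gt_of_ne ht with ht | ht
  · obtain ⟨a, ha, rfl⟩ := h.surj t ht b hb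
    rw [h.γι] at h0
    have h1 : a = 0 := by
      apply (h.hl t (by omega)).1 a ha
      rw [show m + 1 - t = (m - t) + 1 by omega, pow_succ, Module.End.mul_apply, h0, map_zero]
    rw [h1, map_zero]
  · exact h.inj t ht b hb h0

/-- The restriction is surjective outside the middle degree. -/
lemma hsec_iota_surj (h : HSec gr gr' m L M ι γ) {t : ℕ} (ht : t ≠ m) {b : U} (hb : b ∈ gr' t) :
    ∃ a, ι a = b := by
  rcases Nat.lt_or_gt_of_ne ht with ht | ht
  · obtain ⟨a, -, h1⟩ := h.surj t ht b hb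
    exact ⟨a, h1⟩
  · by_cases ht2 : 2 * m + 1 ≤ t
    · rw [h.bd' t ht2, Submodule.mem_bot] at hb
      exact ⟨0, by rw [hb, map_zero]⟩
    have h2 := (h.hl' (2 * m - t) (by omega)).2
    have e1 : 2 * m - (2 * m - t) = t := by omega
    rw [e1] at h2
    obtain ⟨b', hb', h3⟩ := h2 b hb
    obtain ⟨a, -, rfl⟩ := h.surj (2 * m - t) (by omega) b' hb'
    refine ⟨(L ^ (m - (2 * m - t))) a, ?_⟩
    rw [h.ιL_pow, h3]

end Lin

variable {k : Type u} [Field k] {𝒱 : VarClass k} {ops : CycleOps 𝒱}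
  {W : WeilCohomology.{u, v} ops} {X Y Z : 𝒱.Obj} {p : ℕ} {Φ : FrobSystem W p} {σ : W.K →+* ℂ}
  {i : Y ⟶ X} {D : X.Cycles}

/-- Homogeneous elements of two different degrees. -/
lemma eq_zero_of_two {s : ℤ} {t : ℕ} (hst : s ≠ t) {b : W.H Z} (h1 : b ∈ grZ (W.gr Z) s)
    (h2 : b ∈ W.gr Z t) : b = 0 := by
  by_cases hs : 0 ≤ s
  · lift s to ℕ using hs
    rw [grZ_natCast] at h1
    have h3 := (W.isInternal Z).submodule_iSupIndep.pairwiseDisjoint
      (show s ≠ t by exact_mod_cast hst)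
    exact Submodule.disjoint_def.1 h3 b h1 h2
  · rw [grZ_of_neg (by omega)] at h1
    exact (Submodule.mem_bot _).1 h1

/-- A class on the square which only acts on the middle degree, with values in the middle degree,
is zero unless its codimension is the dimension. -/
lemma class_eq_zero {j : ℕ} (hj : j ≠ X.dim) {c : W.H (X.prod X)}
    (hc : c ∈ W.gr (X.prod X) (2 * j)) (h1 : ∀ l, l ≠ X.dim → ∀ a ∈ W.gr X l, W.corr c a = 0)
    (h2 : ∀ a, W.corr c a ∈ W.gr X X.dim) : c = 0 := by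
  apply corr_inj
  apply gr_ext (W.isInternal X)
  intro l a ha
  rw [LinearMap.zero_apply]
  by_cases hl : l = X.dim
  · subst hl
    have h3 := W.corr_isHom hc X.dim a (by rw [grZ_natCast]; exact ha)
    exact eq_zero_of_two (by omega) h3 (h2 a)
  · exact h1 l hl a ha

/-- A class on the square of the hyperplane section which only acts on the vanishing cohomology is
zero unless its codimension is the dimension. -/
lemma class_eq_zeroY (hdim : X.dim = Y.dim + 1) (hD : X.IsCyc 1 D)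
    (hY : W.cl X (ops.push i Y.V.fundCycle) = W.cl X D) (hHL : HardLefschetz W X D)
    (hWL : WeakLefschetz W i) {j : ℕ} (hj : j ≠ Y.dim) {c : W.H (Y.prod Y)}
    (hc : c ∈ W.gr (Y.prod Y) (2 * j)) (h1 : ∀ a, W.corr c (W.map i a) = 0)
    (h2 : ∀ b, W.push i (W.corr c b) = 0) : c = 0 := by
  have hs := hsec hdim hD hY hHL hWL
  apply class_eq_zero hj hc
  · intro l hl b hb
    obtain ⟨a, rfl⟩ := hsec_iota_surj hs hl hb
    exact h1 a
  · intro b
    -- the components of the value outside the middle degree vanish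
    refine gr_induction (W.isInternal Y) (p := fun b => W.corr c b ∈ W.gr Y Y.dim) ?_ ?_ b
    swap
    · intro b b' hb hb'
      rw [map_add]
      exact Submodule.add_mem _ hb hb'
    intro l b hb
    have h3 := W.corr_isHom hc l b (by rw [grZ_natCast]; exact hb)
    by_cases hl : 0 ≤ (l : ℤ) + 2 * ((j : ℤ) - Y.dim)
    · obtain ⟨t, ht⟩ : ∃ t : ℕ, (t : ℤ) = (l : ℤ) + 2 * ((j : ℤ) - Y.dim) :=
        ⟨_, Int.toNat_of_nonneg hl⟩
      rw [← ht, grZ_natCast] at h3
      by_cases htm : t = Y.dim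
      · rwa [htm] at h3
      · rw [hsec_gamma_inj hs htm h3 (h2 b)]
        exact Submodule.zero_mem _
    · rw [grZ_of_neg (by omega)] at h3
      rw [(Submodule.mem_bot _).1 h3]
      exact Submodule.zero_mem _

/-- The Tate conjecture for the square of `X`, outside the middle codimension. -/
theorem tate_square (hdim : X.dim = Y.dim + 1) (hD : X.IsCyc 1 D)
    (hY : W.cl X (ops.push i Y.V.fundCycle) = W.cl X D) (hHL : HardLefschetz W X D)
    (hWL : WeakLefschetz W i) (h : TateIn Φ (X.prod Y) Y.dim) {j : ℕ} (hj : j ≠ X.dim) :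
    TateIn Φ (X.prod X) j := by
  intro c hc
  obtain ⟨s, hs, ⟨h1, -⟩, h3⟩ := (tate_squares hdim hD hY hHL hWL h j).1 c hc
  have h4 : c - s = 0 := class_eq_zero hj (Submodule.sub_mem _ hc.1 (span_gr hs)) h1
    fun a => (h3 a).1
  rw [sub_eq_zero.1 h4]
  exact hs

theorem tate_squareY (hdim : X.dim = Y.dim + 1) (hD : X.IsCyc 1 D)
    (hY : W.cl X (ops.push i Y.V.fundCycle) = W.cl X D) (hHL : HardLefschetz W X D)
    (hWL : WeakLefschetz W i) (h : TateIn Φ (X.prod Y) Y.dim) {j : ℕ} (hj : j ≠ Y.dim) :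
    TateIn Φ (Y.prod Y) j := by
  intro c hc
  obtain ⟨s, hs, h1, h2⟩ := (tate_squares hdim hD hY hHL hWL h j).2 c hc
  have h4 : c - s = 0 := class_eq_zeroY hdim hD hY hHL hWL hj
    (Submodule.sub_mem _ hc.1 (span_gr hs)) h1 h2
  rw [sub_eq_zero.1 h4]
  exact hs

theorem homEqNum_square' (hdim : X.dim = Y.dim + 1) (hD : X.IsCyc 1 D)
    (hY : W.cl X (ops.push i Y.V.fundCycle) = W.cl X D) (hHL : HardLefschetz W X D)
    (hWL : WeakLefschetz W i) (h : HomEqNumIn W (X.prod Y) X.dim) {j : ℕ} (hj : j ≠ X.dim) :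
    HomEqNumIn W (X.prod X) j := by
  intro z hz h0
  obtain ⟨h1, -, h3⟩ := homEqNum_square hdim hD hY hHL hWL h hz h0
  exact class_eq_zero hj (W.cl_mem hz) h1 fun a => (h3 a).1

theorem homEqNum_squareY (hdim : X.dim = Y.dim + 1) (hD : X.IsCyc 1 D)
    (hY : W.cl X (ops.push i Y.V.fundCycle) = W.cl X D) (hHL : HardLefschetz W X D)
    (hWL : WeakLefschetz W i) (h : HomEqNumIn W (X.prod Y) X.dim) {j : ℕ} (hj : j ≠ Y.dim) :
    HomEqNumIn W (Y.prod Y) j := by
  intro z hz h0
  obtain ⟨h1, h2⟩ := homEqNum_section hdim hD hY hHL hWL h hz h0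
  exact class_eq_zeroY hdim hD hY hHL hWL hj (W.cl_mem hz) h1 h2

/-- **Poles of the zeta functions of the squares.** -/
theorem pole_squares (hp : 1 < p) (hRH : ∀ Z, RiemannHyp Φ σ Z) (hdim : X.dim = Y.dim + 1)
    (hD : X.IsCyc 1 D)
    (hY : W.cl X (ops.push i Y.V.fundCycle) = W.cl X D) (hHL : HardLefschetz W X D)
    (hWL : WeakLefschetz W i) (h : PoleFormula Φ σ (X.prod Y) Y.dim) :
    (∀ j ≤ (X.prod X).dim, j ≠ X.dim → PoleFormula Φ σ (X.prod X) j) ∧
      ∀ j ≤ (Y.prod Y).dim, j ≠ Y.dim → PoleFormula Φ σ (Y.prod Y) j := by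
  have hdimZ : Y.dim + X.dim = (X.prod Y).dim := by rw [dim_prod, add_comm]
  have h1 := (pole_iff_tate hp (hRH _) (by omega)).1 h
  have h2 := (pole_iff_tate hp (hRH _) (by omega)).1 ((pole_symm hp (hRH _) hdimZ).1 h)
  exact ⟨fun j hj hjn => (pole_iff_tate hp (hRH _) hj).2
      ⟨tate_square hdim hD hY hHL hWL h1.1 hjn, homEqNum_square' hdim hD hY hHL hWL h2.2 hjn⟩,
    fun j hj hjn => (pole_iff_tate hp (hRH _) hj).2
      ⟨tate_squareY hdim hD hY hHL hWL h1.1 hjn, homEqNum_squareY hdim hD hY hHL hWL h2.2 hjn⟩⟩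

end Pool.Agent.Y163.Pole
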